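import Pool.Agent.P8H70.TU.Stm

/-!
# Project TU (helper70), package CHP (helper43)
-/

set_option autoImplicit false

open Complex MeasureTheory Polynomial Finset ComplexConjugate

namespace Pool.Agent.P8H43.TUN

open Pool.Agent.P8H70.TU
open Pool.Agent.P8H70.TR (tp continuous_tp)

/-! ### the `L_1` norm of sequences -/

lemma N1_nonneg (n : ℕ) (b : ℕ → ℂ) : 0 ≤ N1 n b := by
  unfold N1
  have : 0 ≤ ∫ t in (0 : ℝ)..(2 * Real.pi), ‖tp n b t‖ :=
    intervalIntegral.integral_nonneg (by positivity) fun _ _ => norm_nonneg _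
  positivity

lemma tp_sum {ι : Type} (s : Finset ι) (n : ℕ) (c : ι → ℂ) (w : ι → ℕ → ℂ) (t : ℝ) :
    tp n (fun j => ∑ i ∈ s, c i * w i j) t = ∑ i ∈ s, c i * tp n (w i) t := by
  unfold tp
  simp_rw [Finset.mul_sum]
  rw [Finset.sum_comm]
  refine Finset.sum_congr rfl fun j _ => ?_
  rw [Finset.sum_mul]
  refine Finset.sum_congr rfl fun i _ => ?_
  ring

lemma N1_sum {ι : Type} (s : Finset ι) (n : ℕ) (c : ι → ℂ) (w : ι → ℕ → ℂ) :
    N1 n (fun j => ∑ i ∈ s, c i * w i j) ≤ ∑ i ∈ s, ‖c i‖ * N1 n (w i) := by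
  have h1 : ∫ t in (0 : ℝ)..(2 * Real.pi), ‖tp n (fun j => ∑ i ∈ s, c i * w i j) t‖ ≤
      ∫ t in (0 : ℝ)..(2 * Real.pi), ∑ i ∈ s, ‖c i‖ * ‖tp n (w i) t‖ := by
    apply intervalIntegral.integral_mono_on (by positivity)
    · exact (continuous_tp n _).norm.intervalIntegrable _ _
    · apply Continuous.intervalIntegrable
      exact continuous_finsetSum _ fun i _ => continuous_const.mul (continuous_tp n _).norm
    · intro t _
      rw [tp_sum]
      refine (norm_sum_le _ _).trans (le_of_eq ?_)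
      exact Finset.sum_congr rfl fun i _ => norm_mul _ _
  have h2 : ∫ t in (0 : ℝ)..(2 * Real.pi), ∑ i ∈ s, ‖c i‖ * ‖tp n (w i) t‖ =
      ∑ i ∈ s, ∫ t in (0 : ℝ)..(2 * Real.pi), ‖c i‖ * ‖tp n (w i) t‖ := by
    apply intervalIntegral.integral_finsetSum
    intro i _
    apply Continuous.intervalIntegrable
    exact continuous_const.mul (continuous_tp n _).norm
  rw [h2] at h1
  unfold N1
  calc (2 * Real.pi)⁻¹ * ∫ t in (0 : ℝ)..(2 * Real.pi), ‖tp n (fun j => ∑ i ∈ s, c i * w i j) t‖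
      ≤ (2 * Real.pi)⁻¹ * ∑ i ∈ s, ∫ t in (0 : ℝ)..(2 * Real.pi), ‖c i‖ * ‖tp n (w i) t‖ :=
        mul_le_mul_of_nonneg_left h1 (by positivity)
    _ = _ := by
        rw [Finset.mul_sum]
        refine Finset.sum_congr rfl fun i _ => ?_
        rw [intervalIntegral.integral_const_mul]
        ring

lemma N1_mul_le (hA : S_ALG) {n : ℕ} {x y : ℕ → ℂ} (hx : N1 n x ≤ 1) (hy : N1 n y ≤ 1) :
    N1 n (fun j => x j * y j) ≤ 1 :=
  (hA n x y).trans (mul_le_one₀ hx (N1_nonneg _ _) hy)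

lemma N1_pow_le (hA : S_ALG) {n : ℕ} {x : ℕ → ℂ} (hx : N1 n x ≤ 1) (k : ℕ) :
    N1 n (fun j => x j ^ (k + 1)) ≤ 1 := by
  induction k with
  | zero => simpa using hx
  | succ k ih =>
    have := N1_mul_le hA ih hx
    simpa only [pow_succ] using this

lemma N1_mono_le (hA : S_ALG) {n : ℕ} {x y : ℕ → ℂ} (hx : N1 n x ≤ 1) (hy : N1 n y ≤ 1)
    (l m : ℕ) (h : 1 ≤ l + m) : N1 n (fun j => x j ^ l * y j ^ m) ≤ 1 := by
  rcases l with _ | l
  · obtain ⟨m, rfl⟩ : ∃ m', m = m' + 1 := ⟨m - 1, by omega⟩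
    simpa only [pow_zero, one_mul] using N1_pow_le hA hy m
  · rcases m with _ | m
    · simpa only [pow_zero, mul_one] using N1_pow_le hA hx l
    · exact N1_mul_le hA (N1_pow_le hA hx l) (N1_pow_le hA hy m)

/-! ### coefficients of Chebyshev polynomials -/

/-- the sum of the moduli of the first coefficients -/
noncomputable def l1 (M : ℕ) (p : ℂ[X]) : ℝ := ∑ l ∈ range M, ‖p.coeff l‖

lemma l1_X_mul (M : ℕ) (p : ℂ[X]) : l1 M (X * p) ≤ l1 M p := by
  unfold l1
  rcases M with _ | M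
  · simp
  · rw [Finset.sum_range_succ', Polynomial.coeff_X_mul_zero, norm_zero, add_zero,
      Finset.sum_range_succ]
    simp only [Polynomial.coeff_X_mul]
    have := norm_nonneg (p.coeff M)
    linarith

lemma l1_T (M : ℕ) : ∀ a : ℕ, l1 M (Chebyshev.T ℂ a) ≤ 3 ^ a ∧
    l1 M (Chebyshev.T ℂ ((a + 1 : ℕ) : ℤ)) ≤ 3 ^ (a + 1) := by
  intro a
  induction a with
  | zero =>
    constructor
    · simp only [Nat.cast_zero, Chebyshev.T_zero, pow_zero]
      unfold l1
      calc ∑ l ∈ range M, ‖(1 : ℂ[X]).coeff l‖ ≤ ∑ l ∈ range M, if l = 0 then (1 : ℝ) else 0 := by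
            refine Finset.sum_le_sum fun l _ => ?_
            rw [Polynomial.coeff_one]
            split_ifs <;> simp
        _ ≤ 1 := by
            rw [Finset.sum_ite_eq']
            split_ifs <;> norm_num
    · simp only [zero_add, Nat.cast_one, Chebyshev.T_one, pow_one]
      unfold l1
      calc ∑ l ∈ range M, ‖(X : ℂ[X]).coeff l‖ ≤ ∑ l ∈ range M, if l = 1 then (1 : ℝ) else 0 := by
            refine Finset.sum_le_sum fun l _ => ?_
            rw [Polynomial.coeff_X]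
            rcases eq_or_ne l 1 with h | h
            · simp [h]
            · simp [h, h.symm]
        _ ≤ 3 := by
            rw [Finset.sum_ite_eq']
            split_ifs <;> norm_num
  | succ a ih =>
    refine ⟨ih.2, ?_⟩
    have e : Chebyshev.T ℂ ((a + 1 + 1 : ℕ) : ℤ) =
        2 * X * Chebyshev.T ℂ ((a + 1 : ℕ) : ℤ) - Chebyshev.T ℂ (a : ℤ) := by
      have := Chebyshev.T_add_two ℂ (a : ℤ)
      push_cast
      rw [← this]
      congr 1
    have h1 : l1 M (Chebyshev.T ℂ ((a + 1 + 1 : ℕ) : ℤ)) ≤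
        2 * l1 M (X * Chebyshev.T ℂ ((a + 1 : ℕ) : ℤ)) + l1 M (Chebyshev.T ℂ (a : ℤ)) := by
      rw [e]
      unfold l1
      rw [Finset.mul_sum, ← Finset.sum_add_distrib]
      refine Finset.sum_le_sum fun l _ => ?_
      rw [Polynomial.coeff_sub, mul_assoc]
      refine (norm_sub_le _ _).trans (add_le_add (le_of_eq ?_) le_rfl)
      rw [show (2 : ℂ[X]) = C 2 from rfl, Polynomial.coeff_C_mul, norm_mul]
      norm_num
    have h2 := l1_X_mul M (Chebyshev.T ℂ ((a + 1 : ℕ) : ℤ))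
    have h3 := ih.1
    have h4 := ih.2
    have h5 : (3 : ℝ) ^ (a + 1) = 3 * 3 ^ a := by ring
    have h6 : (3 : ℝ) ^ (a + 1 + 1) = 9 * 3 ^ a := by ring
    have h7 : (0 : ℝ) < 3 ^ a := by positivity
    rw [h6]
    rw [h5] at h4
    linarith

lemma coeff_zero_T : ∀ k : ℕ, (Chebyshev.T ℂ ((2 * k + 1 : ℕ) : ℤ)).coeff 0 = 0 := by
  intro k
  induction k with
  | zero => simp
  | succ k ih =>
    have e : Chebyshev.T ℂ ((2 * (k + 1) + 1 : ℕ) : ℤ) =
        2 * X * Chebyshev.T ℂ ((2 * k + 1 : ℕ) + 1 : ℤ) - Chebyshev.T ℂ ((2 * k + 1 : ℕ) : ℤ) := by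
      have := Chebyshev.T_add_two ℂ ((2 * k + 1 : ℕ) : ℤ)
      rw [← this]
      congr 1
    rw [e, Polynomial.coeff_sub, ih, sub_zero, show (2 : ℂ[X]) * X = X * 2 from mul_comm _ _,
      mul_assoc, Polynomial.coeff_X_mul_zero]

theorem chp : S_CHP := by
  intro hA n x y hx hy a b hab
  set p := Chebyshev.T ℂ (a : ℤ) with hp
  set q := Chebyshev.T ℂ (b : ℤ) with hq
  have hpd : p.natDegree < a + 1 := by
    rw [hp, Chebyshev.natDegree_T]; simp
  have hqd : q.natDegree < b + 1 := by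
    rw [hq, Chebyshev.natDegree_T]; simp
  have hzero : p.coeff 0 * q.coeff 0 = 0 := by
    rcases Nat.even_or_odd a with ha | ha
    · have hb : Odd b := by
        rcases Nat.even_or_odd b with hb | hb
        · exact absurd hab (Nat.not_odd_iff_even.2 (ha.add hb))
        · exact hb
      obtain ⟨k, rfl⟩ := hb
      rw [hq, coeff_zero_T k, mul_zero]
    · obtain ⟨k, rfl⟩ := ha
      rw [hp, coeff_zero_T k, zero_mul]
  have e : (fun j => p.eval (x j) * q.eval (y j)) = fun j =>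
      ∑ i ∈ range (a + 1) ×ˢ range (b + 1), (p.coeff i.1 * q.coeff i.2) *
        (fun i : ℕ × ℕ => fun j => x j ^ i.1 * y j ^ i.2) i j := by
    funext j
    rw [Polynomial.eval_eq_sum_range' hpd, Polynomial.eval_eq_sum_range' hqd,
      Finset.sum_mul_sum, Finset.sum_product]
    refine Finset.sum_congr rfl fun l _ => Finset.sum_congr rfl fun m _ => ?_
    ring
  rw [e]
  refine (N1_sum _ n _ _).trans ?_
  calc ∑ i ∈ range (a + 1) ×ˢ range (b + 1), ‖p.coeff i.1 * q.coeff i.2‖ *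
        N1 n ((fun i : ℕ × ℕ => fun j => x j ^ i.1 * y j ^ i.2) i)
      ≤ ∑ i ∈ range (a + 1) ×ˢ range (b + 1), ‖p.coeff i.1‖ * ‖q.coeff i.2‖ := by
        refine Finset.sum_le_sum fun i _ => ?_
        rw [← norm_mul]
        rcases Nat.eq_zero_or_pos (i.1 + i.2) with h0 | h0
        · have h1 : i.1 = 0 := by omega
          have h2 : i.2 = 0 := by omega
          rw [h1, h2, hzero, norm_zero, zero_mul]
        · exact mul_le_of_le_one_right (norm_nonneg _) (N1_mono_le hA hx hy _ _ h0)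
    _ = l1 (a + 1) p * l1 (b + 1) q := by
        unfold l1
        rw [Finset.sum_mul_sum, Finset.sum_product]
    _ ≤ 3 ^ a * 3 ^ b := by
        apply mul_le_mul (l1_T (a + 1) a).1 (l1_T (b + 1) b).1
        · exact Finset.sum_nonneg fun _ _ => norm_nonneg _
        · positivity
    _ = 3 ^ (a + b) := (pow_add _ _ _).symm

end Pool.Agent.P8H43.TUN
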